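import Pool.Agent.Helper9.RC2.Goals

/-!
# MP_b55b7c_an, project RC2: finitely many local comparisons are enough (packet CPC)
-/

open scoped ENNReal NNReal InnerProductSpace ComplexOrder
open Filter Topology

attribute [-instance] CStarMatrix.instAlgebra CStarMatrix.instModule CStarMatrix.instSMul
  CStarMatrix.instMulAction CStarMatrix.instDistribMulAction

noncomputable section
namespace Pool.Agent.Helper23.RC2.CPC

open RC
universe u

theorem val {A : Type u} [CStarAlgebra A] [PartialOrder A] [StarOrderedRing A]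
    (φ : TState A) {ι : Type} [Fintype ι] (h : CStarMatrix ι ι A) (ε : ℝ) :
    (φ.φ ((ε : ℂ) • (1 : A) - ∑ i, h i i)).re = ε - tm φ h := by
  unfold tm
  rw [map_sub, map_smul, map_sum, φ.one, Complex.sub_re, Complex.re_sum, smul_eq_mul, mul_one,
    Complex.ofReal_re]

theorem t (hL : LocP.{u}) (hC : CoverP.{u}) : CpcP.{u} := by
  intro A _ _ _ ι κ _ _ _ _ a b ha hb hd ε hε
  choose y h h0 hle htm using fun φ : TState A => hL A ι κ a b ha hb hd φ ε hε
  obtain ⟨T, hT⟩ := hC A (TState A) (fun ψ => (ε : ℂ) • (1 : A) - ∑ i, h ψ i i) (by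
    intro φ
    refine ⟨φ, ?_⟩
    rw [val]
    have := htm φ
    linarith)
  refine ⟨T.card, fun i => y (T.equivFin.symm i).1, fun i => h (T.equivFin.symm i).1,
    fun i => ⟨h0 _, hle _⟩, fun φ => ?_⟩
  obtain ⟨ψ, hψ, hpos⟩ := hT φ
  refine ⟨T.equivFin ⟨ψ, hψ⟩, ?_⟩
  change tm φ (h (T.equivFin.symm (T.equivFin ⟨ψ, hψ⟩)).1) < ε
  rw [Equiv.symm_apply_apply]
  rw [val] at hpos
  linarith

end Pool.Agent.Helper23.RC2.CPC
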